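import Pool.Agent.H3.PM.Dat
import Pool.Agent.H5.GEO.Ev1

/-!
# The equation of the foreign label along the line, over the labels of a member

`ln_m`: outside an event of small mass the equation of the label of the second sample has a level at
the first point, with numbers of the size `2 ^ (C b J)`.
-/

set_option autoImplicit false

namespace Pool.PM

open Finset Real
open Pool.Agent.H49.Ent Pool.Agent.H32.Dense Pool.STK Pool.KAF Pool.KAL Pool.KS3 Pool.M3F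
open Pool.KJA Pool.KA Pool.K2S Pool.KSAT Pool.PB Pool.STAT Pool.GEN Pool.CLO37 Pool.IEN Pool.EXS
open Pool.JPN Pool.JMS Pool.KM7 Pool.S6C Pool.GEO

/-- The numbers of the levels. -/
lemma ln_num (D : ℕ) {B L' : ℝ} (hD : 16 * ((D : ℝ) + 1) ^ 2 ≤ B)
    (hL' : L' = 16 * ((D : ℝ) + 1) * B * B) :
    bE₀ D B B L' ≤ B ^ (3 * D + 5) ∧ bgr D B B L' ≤ B ^ (3 * D + 7) := by
  have hD0 : (0 : ℝ) ≤ D := Nat.cast_nonneg D
  have hD1 : (1 : ℝ) ≤ (D : ℝ) + 1 := by linarith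
  have hD2 : (D : ℝ) + 1 ≤ ((D : ℝ) + 1) ^ 2 := le_self_pow₀ hD1 two_ne_zero
  have hB : 1 ≤ B := by linarith
  have hB0 : 0 ≤ B := by linarith
  have hL0 : 0 ≤ L' := by
    rw [hL']
    positivity
  have hLB : L' ≤ B ^ 3 := by
    rw [hL']
    calc 16 * ((D : ℝ) + 1) * B * B ≤ B * B * B := by
          refine mul_le_mul (mul_le_mul (by linarith) le_rfl (by linarith) hB0) le_rfl
            (by linarith) (by positivity)
      _ = B ^ 3 := by ring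
  have hbEb : bEb D B L' ≤ B ^ (3 * D + 2) := by
    unfold bEb
    calc 2 * ((D : ℝ) + 1) * L' ^ D * B ≤ B * (B ^ 3) ^ D * B := by
          refine mul_le_mul (mul_le_mul (by linarith) (pow_le_pow_left₀ hL0 hLB _)
            (by positivity) hB0) le_rfl (by linarith) (by positivity)
      _ = B ^ (3 * D + 2) := by
          rw [← pow_mul]
          ring
  have hbEb0 : 0 ≤ bEb D B L' := by
    unfold bEb
    positivity
  constructor
  · unfold bE₀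
    calc 2 * (2 * B * B * ((D : ℝ) + 1)) * bEb D B L' * ((D : ℝ) + 1) =
          (4 * ((D : ℝ) + 1) ^ 2) * (B * B) * bEb D B L' := by ring
      _ ≤ B * (B * B) * B ^ (3 * D + 2) := by
          refine mul_le_mul (mul_le_mul (by linarith) le_rfl (by positivity) hB0) hbEb hbEb0
            (by positivity)
      _ = B ^ (3 * D + 5) := by ring
  · unfold bgr
    calc ((D : ℝ) + 1) ^ 2 * B ^ 2 * bEb D B L' * B ^ 2 ≤
          B * B ^ 2 * B ^ (3 * D + 2) * B ^ 2 := by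
          refine mul_le_mul (mul_le_mul (mul_le_mul (by linarith) le_rfl (by positivity) hB0)
            hbEb hbEb0 (by positivity)) le_rfl (by positivity) (by positivity)
      _ = B ^ (3 * D + 7) := by ring

/-- **The equation of the foreign label along the line.** -/
theorem ln_m (D : ℕ) {c₀ : ℝ} (hc₀ : 0 < c₀) : ∃ CH : ℝ, 1 ≤ CH ∧ ∀ lam : ℝ, 0 ≤ lam →
    ∃ Ca : ℝ, 1 ≤ Ca ∧ ∀ {m : ℕ} {S : PCl m},
    (∀ (τ : ℝ) (J : ℕ) (F : Fam m J) (A : F.Ω → Prop), S.St τ J F A →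
      F.Tr ∧ F.Tm (τ * J) ∧ F.Rb (τ * J) ∧ Real.exp (-(τ * J)) ≤ Pe F.p A) →
    ∀ {c : ℕ → Fin m} {N : MNum} {K : ℕ} {b y : ℝ}, 0 ≤ N.w0 → N.w0 ≤ N.w1 → N.w1 ≤ 1 → 0 < b →
    N.w1 - N.w0 ≤ y → y ≤ b →
    (∀ ρ : ℝ, 0 < ρ → ExvY S N.w1 (fun J F ω (i : Fin 3) => F.X J ω (c i))
      ((∑ l ∈ range 3, (1 - N.g l)) - ρ)) →
    N.w1 + Ca * b ≤ N.gN → (∀ i < 3, N.g i + Ca * b ≤ N.gN) →
    ∃ φ : ℝ, 0 < φ ∧ Bas S (fun J F A => ∀ (d : MDat N φ K D F c A) (Q : F.Ω × F.Ω → ℝ),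
      IsLaw Q → (∀ e, Q e ≤ 2 * q2 F A ⌊N.w0 * J⌋₊ e) → ∃ θ : d.V → ℕ → ℝ,
      (∀ v j, θ v (j + 1) = 2 ^ ⌊lam * b * J⌋₊ * θ v j) ∧
      (∀ ω, A ω → 1 / ((2 ^ (d.Pr - ⌊N.w1 * J⌋₊) : ℕ) : ℝ) ≤ θ (d.z (ptr F J ω)) 0) ∧
      (∀ ω, A ω → ∀ j ≤ D, θ (d.z (ptr F J ω)) j ≤
        2 ^ ⌊Ca * b * J⌋₊ / ((2 ^ (d.Pr - ⌊N.w1 * J⌋₊) : ℕ) : ℝ)) ∧
      ms Q (fun e => ¬ ∃ k, LnR D (d.Qh (d.z (ptr F J e.2))) (2 ^ ⌊CH * b * J⌋₊)
          (θ (d.z (ptr F J e.2))) (xte c 3 ⌊N.w1 * J⌋₊ d.Pr ⌊N.sN * J⌋₊ F e.1) k ∧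
        ∀ (o : Option (Fin 4)) (m : ℕ), |MvPolynomial.eval
            (xte c 3 ⌊N.w1 * J⌋₊ d.Pr ⌊N.sN * J⌋₊ F e.1)
              (MvPolynomial.pderiv o (pN (k + m) (d.Qh (d.z (ptr F J e.2)))))| *
            θ (d.z (ptr F J e.2)) (k + 1) ^ m ≤
          2 ^ ⌊Ca * b * J⌋₊ * |MvPolynomial.eval (xte c 3 ⌊N.w1 * J⌋₊ d.Pr ⌊N.sN * J⌋₊ F e.1)
            (pN (k + 1) (d.Qh (d.z (ptr F J e.2))))|) ≤ c₀) := by
  classical
  obtain ⟨Cu, hCu, hline0⟩ := line_w2 3 D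
  have hCu0 : 0 < Cu := by linarith
  obtain ⟨a₀, ha₀⟩ : ∃ a₀ : ℝ, a₀ = (2 * Cu + 2) / c₀ := ⟨_, rfl⟩
  have ha₀0 : 0 < a₀ := by
    rw [ha₀]
    positivity
  obtain ⟨CH, hCH⟩ : ∃ CH : ℝ, CH = 2 * (1 + a₀) := ⟨_, rfl⟩
  refine ⟨CH, by linarith, ?_⟩
  intro lam hlam
  have hDr : (0 : ℝ) ≤ D := Nat.cast_nonneg D
  obtain ⟨Ca, hCa⟩ : ∃ Ca : ℝ, Ca = (3 * D + 8) * CH + D * lam + 2 := ⟨_, rfl⟩
  have hCH0 : 0 < CH := by linarith
  have hs0 : 0 ≤ (3 * (D : ℝ) + 8) * CH := by positivity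
  have hs1 : 0 ≤ (D : ℝ) * lam := by positivity
  refine ⟨Ca, by linarith, ?_⟩
  intro m S hmem c N K b y hw0 hw01 hw1 hb hyw hyb hex hr0 hr1
  obtain ⟨C, hC, hline⟩ := hline0 K
  have hl2 : 0 < Real.log 2 := Real.log_pos one_lt_two
  have hl2' : Real.log 2 < 1 := by
    have := Real.log_two_lt_d9
    linarith
  have hl2'' : 0.69 < Real.log 2 := by
    have := Real.log_two_gt_d9
    linarith
  obtain ⟨φ₁, hφ₁, hB⟩ := hline hmem hw0 hw01 hw1 hex (C₀ := 2) (by norm_num) (δ := b) hb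
  obtain ⟨φ₂, hφ₂, J₂, hkk⟩ := kk_small 3 D hC hb
  obtain ⟨φ, hφ⟩ : ∃ φ : ℝ, φ = min φ₁ (min φ₂ (b / 3)) := ⟨_, rfl⟩
  have hφ0 : 0 < φ := by
    rw [hφ]
    exact lt_min hφ₁ (lt_min hφ₂ (by positivity))
  have f1 : φ ≤ φ₁ := by
    rw [hφ]
    exact min_le_left _ _
  have f2 : φ ≤ φ₂ := by
    rw [hφ]
    exact (min_le_right _ _).trans (min_le_left _ _)
  have f3 : φ ≤ b / 3 := by
    rw [hφ]
    exact (min_le_right _ _).trans (min_le_right _ _)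
  obtain ⟨J₃, hJ₃⟩ := const_exp (max C (16 * ((D : ℝ) + 1) ^ 2)) hb
  obtain ⟨J₄, hJ₄⟩ := exists_nat_gt (2 * (Cu + 2) / b)
  have hpos : Bas S (fun J F A => 0 < Pe F.p A) :=
    ⟨1, one_pos, 0, fun J _ F A h => lt_of_lt_of_le (Real.exp_pos _) (hmem _ J F A h).2.2.2⟩
  refine ⟨φ, hφ0, (hB.and hpos).mono (max J₂ (max J₃ J₄)) ?_⟩
  rintro J hJ F A ⟨hm, hA⟩
  intro d Q hQ hQd
  have hJr : (0 : ℝ) ≤ J := Nat.cast_nonneg J
  have j2 : J₂ ≤ J := (le_max_left _ _).trans hJ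
  have j3 : J₃ ≤ J := ((le_max_left _ _).trans (le_max_right _ _)).trans hJ
  have j4 : J₄ ≤ J := ((le_max_right _ _).trans (le_max_right _ _)).trans hJ
  have hcon := hJ₃ J j3
  have k1 : C ≤ Real.exp (b * J) := (le_max_left _ _).trans hcon
  have k2 : 16 * ((D : ℝ) + 1) ^ 2 ≤ Real.exp (b * J) := (le_max_right _ _).trans hcon
  have k3 : 2 * (Cu + 2) ≤ b * J := by
    have h1 : (J₄ : ℝ) ≤ J := by exact_mod_cast j4
    have h2 := hJ₄.trans_le h1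
    rw [div_lt_iff₀ hb] at h2
    linarith
  have hbJ : 0 ≤ b * J := by positivity
  -- the floors
  obtain ⟨n₀, hn₀⟩ : ∃ n : ℕ, n = ⌊CH * b * J⌋₊ := ⟨_, rfl⟩
  obtain ⟨n₁, hn₁⟩ : ∃ n : ℕ, n = ⌊lam * b * J⌋₊ := ⟨_, rfl⟩
  obtain ⟨n₂, hn₂⟩ : ∃ n : ℕ, n = ⌊Ca * b * J⌋₊ := ⟨_, rfl⟩
  have n0l : (n₀ : ℝ) ≤ CH * b * J := by
    rw [hn₀]
    exact Nat.floor_le (by positivity)
  have n0u : CH * b * J < n₀ + 1 := by
    rw [hn₀]
    exact Nat.lt_floor_add_one _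
  have n1l : (n₁ : ℝ) ≤ lam * b * J := by
    rw [hn₁]
    exact Nat.floor_le (by positivity)
  have hsum : (((3 * D + 8) * n₀ + D * n₁ : ℕ) : ℝ) ≤ (Ca - 2) * b * J := by
    push_cast
    have h1 : (3 * (D : ℝ) + 8) * n₀ ≤ (3 * D + 8) * (CH * b * J) :=
      mul_le_mul_of_nonneg_left n0l (by positivity)
    have h2 : (D : ℝ) * n₁ ≤ D * (lam * b * J) := mul_le_mul_of_nonneg_left n1l hDr
    rw [hCa]
    linarith
  have hn2 : (3 * D + 8) * n₀ + D * n₁ ≤ n₂ := by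
    rw [hn₂]
    refine Nat.le_floor (hsum.trans ?_)
    have : 0 ≤ 2 * b * J := by positivity
    linarith
  rw [← hn₀, ← hn₁, ← hn₂]
  obtain ⟨B, hBe⟩ : ∃ B : ℝ, B = 2 ^ n₀ := ⟨_, rfl⟩
  obtain ⟨Λ, hΛ⟩ : ∃ Λ : ℝ, Λ = 2 ^ n₁ := ⟨_, rfl⟩
  have hB1 : 1 ≤ B := by
    rw [hBe]
    exact one_le_pow₀ one_le_two
  have hΛ1 : 1 ≤ Λ := by
    rw [hΛ]
    exact one_le_pow₀ one_le_two
  have hBexp : B = Real.exp (Real.log 2 * n₀) := by
    rw [hBe, Real.exp_mul, Real.exp_log (by norm_num), Real.rpow_natCast]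
  -- the loss
  obtain ⟨dd, hdd⟩ : ∃ dd : ℕ, dd = ⌊N.w1 * J⌋₊ - ⌊N.w0 * J⌋₊ := ⟨_, rfl⟩
  have hW01 : ⌊N.w0 * J⌋₊ ≤ ⌊N.w1 * J⌋₊ :=
    Nat.floor_le_floor (mul_le_mul_of_nonneg_right hw01 hJr)
  have hdJ : (dd : ℝ) ≤ b * J + 1 := by
    have h1 : ((⌊N.w1 * J⌋₊ - ⌊N.w0 * J⌋₊ : ℕ) : ℝ) = (⌊N.w1 * J⌋₊ : ℝ) - ⌊N.w0 * J⌋₊ := by
      rw [Nat.cast_sub hW01]
    have h2 := Nat.floor_le (show 0 ≤ N.w1 * (J : ℝ) by
      have := hw0.trans hw01
      positivity)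
    have h3 := Nat.lt_floor_add_one (N.w0 * (J : ℝ))
    have h4 : (N.w1 - N.w0) * J ≤ b * J := mul_le_mul_of_nonneg_right (hyw.trans hyb) hJr
    rw [hdd, h1]
    linarith
  have hdd0 : (0 : ℝ) ≤ dd := Nat.cast_nonneg dd
  obtain ⟨h, hh⟩ : ∃ h : ℝ, h = (Cu * (1 + (dd : ℝ) * Real.log 2) + b * J) / c₀ := ⟨_, rfl⟩
  have hh0 : 0 < h := by
    rw [hh]
    positivity
  have hhu : h ≤ a₀ * (b * J) := by
    rw [hh, ha₀, div_mul_eq_mul_div, div_le_div_iff_of_pos_right hc₀]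
    have h1 : (dd : ℝ) * Real.log 2 ≤ b * J + 1 :=
      (mul_le_of_le_one_right hdd0 hl2'.le).trans hdJ
    have h2 : Cu * (1 + (dd : ℝ) * Real.log 2) ≤ Cu * (b * J + 2) :=
      mul_le_mul_of_nonneg_left (by linarith) hCu0.le
    have h3 : (Cu + 1) * 2 ≤ (Cu + 1) * (b * J) :=
      mul_le_mul_of_nonneg_left (by linarith) (by linarith)
    linarith
  have hexpB : Real.exp (b * J + h) ≤ B := by
    rw [hBexp]
    refine Real.exp_le_exp.2 ?_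
    have h1 : Real.log 2 * (CH * b * J - 1) ≤ Real.log 2 * n₀ :=
      mul_le_mul_of_nonneg_left (by linarith) hl2.le
    have h2 : 0.69 * (CH * b * J - 1) ≤ Real.log 2 * (CH * b * J - 1) := by
      refine mul_le_mul_of_nonneg_right hl2''.le ?_
      have h3 : CH * b * J = 2 * (b * J) + 2 * (a₀ * (b * J)) := by
        rw [hCH]
        ring
      have h4 : 0 ≤ a₀ * (b * J) := by positivity
      linarith
    have h3 : CH * b * J = 2 * (b * J) + 2 * (a₀ * (b * J)) := by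
      rw [hCH]
      ring
    have h4 : 0 ≤ a₀ * (b * J) := by positivity
    rw [h3] at h1 h2
    linarith
  have heb : Real.exp (b * J) ≤ B := le_trans (Real.exp_le_exp.2 (by linarith)) hexpB
  have hCeh : C * Real.exp h ≤ B := by
    refine le_trans ?_ hexpB
    rw [Real.exp_add]
    exact mul_le_mul_of_nonneg_right k1 (Real.exp_pos _).le
  have hDB : 16 * ((D : ℝ) + 1) ^ 2 ≤ B := k2.trans heb
  have hD1 : (1 : ℝ) ≤ ((D : ℝ) + 1) ^ 2 := one_le_pow₀ (by linarith)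
  have hB16 : 16 ≤ B := by linarith
  have hBB : 1 ≤ B * B := one_le_mul_of_one_le_of_one_le hB1 hB1
  obtain ⟨L', hL'⟩ : ∃ L' : ℝ, L' = 16 * ((D : ℝ) + 1) * B * B := ⟨_, rfl⟩
  have hL1 : 1 ≤ L' := by
    rw [hL', mul_assoc]
    exact one_le_mul_of_one_le_of_one_le (by linarith) hBB
  obtain ⟨m1, m2⟩ := ln_num D hDB hL'
  have hbE := bE₀_ge D hB1 hB1 hL1
  -- the boxes
  have hPg := d.Pr_ge
  have hnN := abs_le.1 d.numN
  have hf3 : 3 * (φ * J) ≤ b * J := by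
    have h1 : φ * J ≤ b / 3 * J := mul_le_mul_of_nonneg_right f3 hJr
    linarith
  have hwidr : ∀ i < 4, (((3 * D + 8) * n₀ + D * n₁ : ℕ) : ℝ) ≤
      ((d.Pr - wid ⌊N.w1 * J⌋₊ d.gN i : ℕ) : ℝ) := by
    intro i hi
    have h1 := d.Pr_wid i hi
    rw [Nat.cast_sub h1]
    refine hsum.trans ?_
    rcases Nat.eq_zero_or_pos i with h0 | h0
    · subst h0
      rw [wid_zero]
      have h2 := Nat.floor_le (show 0 ≤ N.w1 * (J : ℝ) by
        have := hw0.trans hw01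
        positivity)
      have h3 := mul_le_mul_of_nonneg_right hr0 hJr
      linarith
    · obtain ⟨l, rfl⟩ : ∃ l, i = l + 1 := ⟨i - 1, by omega⟩
      rw [wid_succ]
      have h2 := abs_le.1 (d.num l (by omega))
      rw [← d.gN_eq l (by omega)] at h2
      have h3 := mul_le_mul_of_nonneg_right (hr1 l (by omega)) hJr
      linarith
  have hpow : ∀ i < 4, B ^ (3 * D + 8) * Λ ^ D ≤ (2 : ℝ) ^ (d.Pr - wid ⌊N.w1 * J⌋₊ d.gN i) := by
    intro i hi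
    have h1 : (3 * D + 8) * n₀ + D * n₁ ≤ d.Pr - wid ⌊N.w1 * J⌋₊ d.gN i := by
      exact_mod_cast hwidr i hi
    rw [hBe, hΛ, ← pow_mul, ← pow_mul, ← pow_add]
    refine pow_le_pow_right₀ one_le_two (le_trans (le_of_eq ?_) h1)
    ring
  have hpow2 : B ^ (3 * D + 8) * Λ ^ D ≤ (2 : ℝ) ^ n₂ := by
    rw [hBe, hΛ, ← pow_mul, ← pow_mul, ← pow_add]
    refine pow_le_pow_right₀ one_le_two (le_trans (le_of_eq ?_) hn2)
    ring
  have hΛD : 1 ≤ Λ ^ D := one_le_pow₀ hΛ1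
  have hM0 : (0 : ℝ) < ((2 ^ (d.Pr - ⌊N.w1 * J⌋₊) : ℕ) : ℝ) := by positivity
  have hBp : ∀ a ≤ 3 * D + 8, B ^ a ≤ B ^ (3 * D + 8) * Λ ^ D := fun a ha =>
    (pow_le_pow_right₀ hB1 ha).trans (le_mul_of_one_le_right (by positivity) hΛD)
  have hBM : B ≤ ((2 ^ (d.Pr - ⌊N.w1 * J⌋₊) : ℕ) : ℝ) := by
    have h1 := hpow 0 (by omega)
    rw [wid_zero] at h1
    push_cast
    refine le_trans ?_ h1
    have h2 := hBp 1 (by omega)
    rwa [pow_one] at h2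
  -- the numbers
  obtain ⟨θM, hθM⟩ : ∃ x : ℝ, x = B ^ (3 * D + 6) * Λ ^ D := ⟨_, rfl⟩
  obtain ⟨E, hE⟩ : ∃ E : ℝ, E = 2 * θM + 8 * B * B := ⟨_, rfl⟩
  have hθM0 : 0 ≤ θM := by
    rw [hθM]
    positivity
  have hE1 : 1 ≤ E := by
    rw [hE]
    linarith
  have hEu : E ≤ B ^ (3 * D + 8) * Λ ^ D := by
    have h1 : B * B ≤ θM := by
      rw [hθM]
      have h2 : B * B = B ^ 2 := by ring
      rw [h2]
      exact (pow_le_pow_right₀ hB1 (by omega)).trans (le_mul_of_one_le_right (by positivity) hΛD)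
    have h2 : B ^ (3 * D + 8) * Λ ^ D = B * B * θM := by
      rw [hθM]
      ring
    have h3 : 16 * 16 ≤ B * B := mul_le_mul hB16 hB16 (by norm_num) (by linarith)
    have h4 : 10 * θM ≤ B * B * θM := mul_le_mul_of_nonneg_right (by linarith) hθM0
    rw [h2, hE, mul_assoc 8 B B]
    linarith
  have hKK : (C * (clC 3 d.kap d.L + 2) * ctC 3 d.kap d.L ^ (2 * (3 + 1))) ^ (D + 1) ≤ B :=
    (hkk J j2 d.kap d.L d.L0 (d.kapφ.trans (mul_le_mul_of_nonneg_right f2 hJr))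
      (d.L1.trans (mul_le_mul_of_nonneg_right f2 hJr))).trans heb
  have hφB : Real.exp (φ * J) ≤ B := by
    refine le_trans (Real.exp_le_exp.2 ?_) heb
    have : 0 ≤ φ * J := by positivity
    linarith
  -- the scales
  have hθu : ∀ ω, A ω → ∀ j ≤ D, ((2 ^ (d.Pr - ⌊N.w1 * J⌋₊) : ℕ) : ℝ) *
      bth D B B L' Λ (d.rz (d.z (ptr F J ω))) j ≤ θM := by
    intro ω hω j hj
    have h1 := d.rz_le ω hω
    have h2 := d.rz_ge ω hω
    unfold bth
    have h3 : bE₀ D B B L' * Λ ^ j ≤ B ^ (3 * D + 5) * Λ ^ D :=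
      mul_le_mul m1 (pow_le_pow_right₀ hΛ1 hj) (by positivity) (by positivity)
    calc ((2 ^ (d.Pr - ⌊N.w1 * J⌋₊) : ℕ) : ℝ) * (d.rz (d.z (ptr F J ω)) * bE₀ D B B L' * Λ ^ j) =
          (((2 ^ (d.Pr - ⌊N.w1 * J⌋₊) : ℕ) : ℝ) * d.rz (d.z (ptr F J ω))) *
            (bE₀ D B B L' * Λ ^ j) := by ring
      _ ≤ B * (B ^ (3 * D + 5) * Λ ^ D) := by
          refine mul_le_mul (h1.trans hφB) h3 ?_ (by linarith)
          have : 0 ≤ bE₀ D B B L' := by linarith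
          positivity
      _ = θM := by
          rw [hθM]
          ring
  refine ⟨fun v j => bth D B B L' Λ (d.rz v) j, ?_, ?_, ?_, ?_⟩
  · intro v j
    simp only
    unfold bth
    rw [← hΛ, pow_succ]
    ring
  · intro ω hω
    have h2 := d.rz_ge ω hω
    simp only
    unfold bth
    rw [pow_zero, mul_one, div_le_iff₀ hM0]
    refine (one_le_mul_of_one_le_of_one_le h2 hbE).trans (le_of_eq ?_)
    ring
  · intro ω hω j hj
    rw [le_div_iff₀ hM0, mul_comm]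
    refine (hθu ω hω j hj).trans (le_trans ?_ hpow2)
    rw [hθM]
    exact mul_le_mul_of_nonneg_right (pow_le_pow_right₀ hB1 (by omega)) (by positivity)
  · have hPJ : d.Pr ≤ J := d.Pr_g.trans d.topN
    have key := hm d.Pr d.gN ⌊N.sN * J⌋₊ d.kap d.L d.V d.z d.z' d.P d.Qh d.rz Q h E B B L' Λ
      (fun l hl => by
        have h1 := abs_le.1 (d.num l (by omega))
        rw [← d.gN_eq l (by omega)] at h1
        have h2 : φ * J ≤ φ₁ * J := mul_le_mul_of_nonneg_right f1 hJr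
        linarith) d.Pr_W hPJ d.Pr_g (fun i hi => ⟨d.winN i hi, d.Pr_wid i hi⟩) d.lab3 d.L0 d.csq
      d.rz_ge hQ hQd
      (fun i => by
        refine (hEu.trans (hpow i i.2)).trans ?_
        unfold ngw
        push_cast
        have h3 : (2 : ℝ) ^ (d.Pr - wid ⌊N.w1 * J⌋₊ d.gN i) ≤
            2 ^ (d.Pr - wid ⌊N.w1 * J⌋₊ d.gN i + 1) :=
          pow_le_pow_right₀ one_le_two (Nat.le_succ _)
        linarith) hE1 hL1 hΛ1 hh0 (hCeh.trans hBM) hCeh hKK (by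
        have h1 : 4 * B * (1 / E + D / L') * B = 4 * (B * B) / E + 4 * (B * B) * D / L' := by
          field_simp
        have h2 : 4 * (B * B) / E ≤ 1 / 2 := by
          rw [div_le_iff₀ (by linarith), hE]
          linarith
        have h3 : 4 * (B * B) * D / L' ≤ 1 / 2 := by
          rw [div_le_iff₀ (by linarith), hL']
          have h4 : 0 ≤ B * B * D := by positivity
          linarith
        rw [h1]
        linarith)
    have hval : (Cu * (1 + ((⌊N.w1 * J⌋₊ - ⌊N.w0 * J⌋₊ : ℕ) : ℝ) * Real.log 2) + b * J) / h =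
        c₀ := by
      rw [← hdd, hh]
      field_simp
    rw [hval] at key
    refine le_trans (ms_le hQ.nonneg ?_) key
    intro e he0 he hcon
    obtain ⟨k, -, h1, h2⟩ := hcon
    have hl := isLaw_cond F.isLaw hA
    have hA2 : A e.2 := by
      have h3 : 0 < q2 F A ⌊N.w0 * J⌋₊ e := by
        have := hQd e
        linarith
      exact cond_supp ((P2_pos hl _).1 h3).2.1
    rw [xpt_xte c 3 _ _ _ d.Pr_W hPJ] at h1 h2
    refine he ⟨k, ?_, fun o mm => ?_⟩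
    · rw [← hBe]
      exact h1
    · refine (h2 o mm).trans (mul_le_mul_of_nonneg_right ?_ (abs_nonneg _))
      have h3 := hθu e.2 hA2 k (by
        have := h1.le
        omega)
      have h4 := hθu e.2 hA2 (k + 1) h1.le
      have h5 : (bth D B B L' Λ (d.rz (d.z (ptr F J e.2))) k +
          bth D B B L' Λ (d.rz (d.z (ptr F J e.2))) (k + 1)) *
            ((2 ^ (d.Pr - ⌊N.w1 * J⌋₊) : ℕ) : ℝ) / E ≤ 1 := by
        rw [div_le_iff₀ (by linarith), hE]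
        linarith
      have h6 : 0 ≤ bgr D B B L' := by
        unfold bgr bEb
        positivity
      calc bgr D B B L' * (1 + (bth D B B L' Λ (d.rz (d.z (ptr F J e.2))) k +
          bth D B B L' Λ (d.rz (d.z (ptr F J e.2))) (k + 1)) *
            ((2 ^ (d.Pr - ⌊N.w1 * J⌋₊) : ℕ) : ℝ) / E) ≤ bgr D B B L' * 2 :=
            mul_le_mul_of_nonneg_left (by linarith) h6
        _ ≤ B ^ (3 * D + 7) * B := by
            refine mul_le_mul m2 (by linarith) (by norm_num) (by positivity)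
        _ = B ^ (3 * D + 8) := by ring
        _ ≤ _ := (hBp _ le_rfl).trans hpow2

end Pool.PM
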